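import Mathlib

set_option autoImplicit false

namespace Pool.Agent.H.MP_5897b0_lc

open Classical

variable {F : Type*} [Field F]

/-- number of changes between consecutive entries -/
noncomputable def oscL : List F → ℕ
  | [] => 0
  | [_] => 0
  | a :: b :: l => (if a = b then 0 else 1) + oscL (b :: l)

theorem oscL_map (c : F) (hc : c ≠ 0) : ∀ l : List F, oscL (l.map (c * ·)) = oscL l
  | [] => rfl
  | [_] => rfl
  | a :: b :: l => by
    have := oscL_map c hc (b :: l)
    simp only [List.map_cons] at this ⊢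
    simp only [oscL, this, mul_eq_mul_left_iff, hc, or_false]

theorem oscL_append (b : F) (m : List F) : ∀ (a : F) (l : List F),
    oscL ((a :: l) ++ (b :: m)) =
      oscL (a :: l) + oscL (b :: m) + (if (a :: l).getLast (by simp) = b then 0 else 1)
  | a, [] => by simp [oscL, add_comm]
  | a, d :: l => by
    have := oscL_append b m d l
    simp only [List.cons_append] at this ⊢
    simp only [oscL, this, List.getLast_cons_cons]
    ring_nf

theorem oscL_append_le (l m : List F) :
    oscL l + oscL m ≤ oscL (l ++ m) ∧ oscL (l ++ m) ≤ oscL l + oscL m + 1 := by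
  cases l with
  | nil => simp [oscL]
  | cons a l =>
    cases m with
    | nil => simp [oscL]
    | cons b m =>
      rw [oscL_append]
      split_ifs <;> omega

theorem oscL_le_length : ∀ l : List F, oscL l ≤ l.length - 1
  | [] => by simp [oscL]
  | [_] => by simp [oscL]
  | a :: b :: l => by
    have := oscL_le_length (b :: l)
    simp only [oscL, List.length_cons] at this ⊢
    split_ifs <;> omega

/-- list of nonzero coefficients -/
noncomputable def lst (v : ℕ →₀ F) : List F := (v.support.sort (· ≤ ·)).map v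

/-- block order -/
def Blk (p z : ℕ →₀ F) : Prop := ∀ i ∈ p.support, ∀ j ∈ z.support, i < j

theorem lst_add {p z : ℕ →₀ F} (h : Blk p z) : lst (p + z) = lst p ++ lst z := by
  have hd : Disjoint p.support z.support := by
    rw [Finset.disjoint_left]; intro i hi hj; exact lt_irrefl _ (h i hi i hj)
  have hs : (p + z).support.sort (· ≤ ·) =
      p.support.sort (· ≤ ·) ++ z.support.sort (· ≤ ·) := by
    apply List.Perm.eq_of_pairwise (le := (· ≤ ·))
    · intro a b _ _ h1 h2; exact le_antisymm h1 h2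
    · exact Finset.pairwise_sort _ _
    · rw [List.pairwise_append]
      refine ⟨Finset.pairwise_sort _ _, Finset.pairwise_sort _ _, ?_⟩
      intro a ha b hb
      exact (h a (by simpa using ha) b (by simpa using hb)).le
    · rw [← Multiset.coe_eq_coe, ← Multiset.coe_add, Finset.sort_eq, Finset.sort_eq,
        Finset.sort_eq, Finsupp.support_add_eq hd, ← Finset.disjUnion_eq_union _ _ hd]
      rfl
  unfold lst
  rw [hs, List.map_append]
  congr 1
  · apply List.map_congr_left
    intro i hi
    have hi' : i ∈ p.support := by simpa using hi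
    have : z i = 0 := by
      by_contra hz; exact lt_irrefl _ (h i hi' i (by simpa using hz))
    simp [this]
  · apply List.map_congr_left
    intro i hi
    have hi' : i ∈ z.support := by simpa using hi
    have : p i = 0 := by
      by_contra hz; exact lt_irrefl _ (h i (by simpa using hz) i hi')
    simp [this]

theorem lst_smul {c : F} (hc : c ≠ 0) (v : ℕ →₀ F) : lst (c • v) = (lst v).map (c * ·) := by
  unfold lst
  rw [Finsupp.support_smul_eq hc, List.map_map]
  rfl

theorem lst_ne_nil {v : ℕ →₀ F} (hv : v ≠ 0) : lst v ≠ [] := by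
  intro h
  have := congrArg List.length h
  simp [lst] at this
  exact hv this

theorem lst_mem_ne {v : ℕ →₀ F} {a : F} (h : a ∈ lst v) : a ≠ 0 := by
  simp only [lst, List.mem_map, Finset.mem_sort] at h
  obtain ⟨i, hi, rfl⟩ := h
  simpa using hi

/-- oscillation of a vector -/
noncomputable def osc (v : ℕ →₀ F) : ℕ := oscL (lst v)

theorem osc_smul {c : F} (hc : c ≠ 0) (v : ℕ →₀ F) : osc (c • v) = osc v := by
  unfold osc; rw [lst_smul hc, oscL_map c hc]

theorem osc_add_le {p z : ℕ →₀ F} (h : Blk p z) :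
    osc p + osc z ≤ osc (p + z) ∧ osc (p + z) ≤ osc p + osc z + 1 := by
  unfold osc; rw [lst_add h]; exact oscL_append_le _ _

theorem Blk.smul {p z : ℕ →₀ F} (h : Blk p z) (a b : F) : Blk (a • p) (b • z) :=
  fun i hi j hj => h i (Finsupp.support_smul hi) j (Finsupp.support_smul hj)

theorem osc_ctrl {α : F} (h0 : α ≠ 0) (h1 : α ≠ 1) {p z : ℕ →₀ F} (h : Blk p z) (hp : p ≠ 0)
    (hz : z ≠ 0) (e : ℕ) (he : e ≤ 1) :
    ∃ c : F, c ≠ 0 ∧ osc (p + c • z) = osc p + osc z + e := by
  have key : ∀ c : F, c ≠ 0 → ∀ a l b m, lst p = a :: l → lst z = b :: m →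
      osc (p + c • z) = osc p + osc z +
        (if (a :: l).getLast (by simp) = c * b then 0 else 1) := by
    intro c hc a l b m hl hm
    have hb : Blk p (c • z) := by simpa using h.smul 1 c
    have h2 : oscL (lst (c • z)) = osc z := osc_smul hc z
    unfold osc at h2 ⊢
    rw [lst_add hb, ← h2, lst_smul hc, hl, hm, List.map_cons, oscL_append]
  obtain ⟨a, l, hl⟩ := List.exists_cons_of_ne_nil (lst_ne_nil hp)
  obtain ⟨b, m, hm⟩ := List.exists_cons_of_ne_nil (lst_ne_nil hz)
  have hb : b ≠ 0 := lst_mem_ne (v := z) (by rw [hm]; simp)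
  set d := (a :: l).getLast (by simp) with hd
  have hd0 : d ≠ 0 := lst_mem_ne (v := p) (by rw [hl]; exact List.getLast_mem _)
  interval_cases e
  · refine ⟨d / b, div_ne_zero hd0 hb, ?_⟩
    rw [key _ (div_ne_zero hd0 hb) a l b m hl hm, if_pos (by rw [← hd]; field_simp)]
  · refine ⟨α * d / b, div_ne_zero (mul_ne_zero h0 hd0) hb, ?_⟩
    rw [key _ (div_ne_zero (mul_ne_zero h0 hd0) hb) a l b m hl hm, if_neg]
    rw [← hd, div_mul_cancel₀ _ hb]
    intro h'
    apply h1
    have : (α - 1) * d = 0 := by rw [sub_mul, ← h']; ring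
    exact sub_eq_zero.1 ((mul_eq_zero.1 this).resolve_right hd0)

/-- all tails are nonzero -/
def Tails (Y : Submodule F (ℕ →₀ F)) : Prop :=
  ∀ N, ∃ z ∈ Y, z ≠ 0 ∧ ∀ i ∈ z.support, N ≤ i

theorem exists_bound (v : ℕ →₀ F) : ∃ K, ∀ i ∈ v.support, i < K :=
  ⟨v.support.sup id + 1, fun i hi => Nat.lt_succ_of_le (Finset.le_sup (f := id) hi)⟩

theorem ne_zero_of_blk {p z : ℕ →₀ F} (h : Blk p z) (hp : p ≠ 0) : p + z ≠ 0 := by
  intro h0
  have := lst_add h
  rw [h0] at this
  have h2 : lst (0 : ℕ →₀ F) = [] := by simp [lst]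
  rw [h2] at this
  exact lst_ne_nil hp (List.append_eq_nil_iff.1 this.symm).1

theorem residues {α : F} (h0 : α ≠ 0) (h1 : α ≠ 1) {Y : Submodule F (ℕ →₀ F)} (hY : Tails Y)
    (M : ℕ) (hM : 0 < M) (r N : ℕ) :
    ∃ z ∈ Y, z ≠ 0 ∧ (∀ i ∈ z.support, N ≤ i) ∧ osc z ≡ r [MOD M] := by
  let R : ℕ → Prop := fun r => ∀ N, ∃ z ∈ Y, z ≠ 0 ∧ (∀ i ∈ z.support, N ≤ i) ∧ osc z ≡ r [MOD M]
  have hadd : ∀ a b e, e ≤ 1 → R a → R b → R (a + b + e) := by
    intro a b e he ha hb N
    obtain ⟨p, hpY, hp0, hpN, hpa⟩ := ha N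
    obtain ⟨K, hK⟩ := exists_bound p
    obtain ⟨z, hzY, hz0, hzN, hzb⟩ := hb (K + N)
    have hbl : Blk p z := fun i hi j hj => by have := hK i hi; have := hzN j hj; omega
    obtain ⟨c, hc, hco⟩ := osc_ctrl h0 h1 hbl hp0 hz0 e he
    refine ⟨p + c • z, Y.add_mem hpY (Y.smul_mem c hzY), ?_, ?_, ?_⟩
    · exact ne_zero_of_blk (by simpa using hbl.smul 1 c) hp0
    · intro i hi
      rcases Finset.mem_union.1 (Finsupp.support_add hi) with h | h
      · exact hpN i h
      · have := hzN i (Finsupp.support_smul h); omega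
    · rw [hco]; exact (hpa.add hzb).add_right e
  have hcongr : ∀ a b, a ≡ b [MOD M] → R a → R b := by
    intro a b hab ha N
    obtain ⟨z, h1, h2, h3, h4⟩ := ha N
    exact ⟨z, h1, h2, h3, h4.trans hab⟩
  have hex : ∃ a, R a := by
    by_contra hne
    push Not at hne
    have : ∀ a, ∃ N, ∀ z ∈ Y, z ≠ 0 → (∀ i ∈ z.support, N ≤ i) → ¬ osc z ≡ a [MOD M] := by
      intro a
      have := hne a
      simp only [R, not_forall, not_exists, not_and] at this
      exact this
    choose f hf using this
    obtain ⟨z, hz, hz0, hzN⟩ := hY ((Finset.range M).sup f)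
    refine hf (osc z % M) z hz hz0 (fun i hi => le_trans ?_ (hzN i hi)) (Nat.mod_modEq _ _).symm
    exact Finset.le_sup (f := f) (Finset.mem_range.2 (Nat.mod_lt _ hM))
  have hmul : ∀ a, R a → ∀ n, R ((n + 1) * a) := by
    intro a ha n
    induction n with
    | zero => simpa using ha
    | succ n ih =>
      have := hadd _ _ 0 (by norm_num) ih ha
      convert this using 1; ring
  obtain ⟨a, ha⟩ := hex
  have hz : R 0 := by
    refine hcongr _ _ ?_ (hmul a ha (M - 1))
    rw [Nat.sub_add_cancel hM]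
    exact (Nat.modEq_zero_iff_dvd).2 (dvd_mul_right _ _)
  have hone : R 1 := by simpa using hadd 0 0 1 le_rfl hz hz
  cases r with
  | zero => exact hz N
  | succ r => simpa using hmul 1 hone r N

end Pool.Agent.H.MP_5897b0_lc
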