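import Mathlib
import Pool.Agent.H.MP_5897b0_lc.A

set_option autoImplicit false

namespace Pool.Agent.H.MP_5897b0_lc

open Classical

variable {F : Type*} [Field F]

/-- least point of the support -/
noncomputable def lo (v : ℕ →₀ F) : ℕ := sInf {i | v i ≠ 0}

theorem lo_ne {v : ℕ →₀ F} (hv : v ≠ 0) : v (lo v) ≠ 0 := by
  have : {i | v i ≠ 0}.Nonempty := by
    by_contra h
    rw [Set.not_nonempty_iff_eq_empty] at h
    apply hv; ext i
    by_contra hi
    have : i ∈ {i | v i ≠ 0} := hi
    rw [h] at this; exact this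
  exact Nat.sInf_mem this

theorem lo_le {v : ℕ →₀ F} {i : ℕ} (hi : v i ≠ 0) : lo v ≤ i := Nat.sInf_le hi

theorem eq_zero_of_lt_lo {v : ℕ →₀ F} {i : ℕ} (hi : i < lo v) : v i = 0 := by
  by_contra h; exact absurd (lo_le h) (not_le.2 hi)

theorem lo_eq {v : ℕ →₀ F} {k : ℕ} (hk : v k ≠ 0) (h : ∀ i < k, v i = 0) : lo v = k := by
  apply le_antisymm (lo_le hk)
  by_contra hlt
  have hv : v ≠ 0 := by rintro rfl; exact hk rfl
  exact lo_ne hv (h _ (not_le.1 hlt))

theorem lo_smul {c : F} (hc : c ≠ 0) (v : ℕ →₀ F) : lo (c • v) = lo v := by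
  unfold lo; congr 1; ext i; simp [hc]

/-- final segment -/
noncomputable def fs (k : ℕ) (v : ℕ →₀ F) : ℕ →₀ F := v.filter (k ≤ ·)

theorem fs_apply (k : ℕ) (v : ℕ →₀ F) (n : ℕ) : fs k v n = if k ≤ n then v n else 0 := by
  simp [fs, Finsupp.filter_apply]

theorem fs_add (k : ℕ) (v w : ℕ →₀ F) : fs k (v + w) = fs k v + fs k w := by
  ext n; simp only [fs_apply, Finsupp.add_apply]; split_ifs <;> simp

theorem fs_smul (k : ℕ) (c : F) (v : ℕ →₀ F) : fs k (c • v) = c • fs k v := by
  ext n; simp only [fs_apply, Finsupp.smul_apply]; split_ifs <;> simp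

theorem fs_supp {k : ℕ} {v : ℕ →₀ F} {i : ℕ} (hi : i ∈ (fs k v).support) :
    k ≤ i ∧ i ∈ v.support := by
  rw [Finsupp.mem_support_iff, fs_apply] at hi
  split_ifs at hi with h
  · exact ⟨h, by simpa using hi⟩
  · exact absurd rfl hi

/-- moduli -/
def Md (k j : ℕ) : ℕ := Nat.fermatNumber (Nat.pair k j + 2)

theorem Md_ge (k j : ℕ) : 17 ≤ Md k j := by
  have := Nat.fermatNumber_mono (show 2 ≤ Nat.pair k j + 2 by omega)
  simpa [Md] using this

/-- index read off from an oscillation number at level k -/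
noncomputable def idx (k n : ℕ) : ℕ := sInf {j | n % Md k j < 3}

theorem idx_eq {k n m o : ℕ} (h1 : ∀ j < m, o ≡ 3 [MOD Md k j]) (h2 : o ≡ 0 [MOD Md k m])
    (hl : o ≤ n) (hu : n ≤ o + 2) : idx k n = m := by
  obtain ⟨e, rfl⟩ := Nat.exists_eq_add_of_le hl
  have he : e ≤ 2 := by omega
  have hm : (o + e) % Md k m < 3 := by
    have := Md_ge k m
    have h3 : o + e ≡ 0 + e [MOD Md k m] := h2.add_right e
    unfold Nat.ModEq at h3
    rw [h3, zero_add, Nat.mod_eq_of_lt (by omega)]; omega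
  apply le_antisymm (Nat.sInf_le (s := {j | (o + e) % Md k j < 3}) hm)
  by_contra hlt
  push Not at hlt
  have hmem : idx k (o + e) ∈ {j | (o + e) % Md k j < 3} := Nat.sInf_mem ⟨m, hm⟩
  have h3 : o + e ≡ 3 + e [MOD Md k (idx k (o + e))] := (h1 _ hlt).add_right e
  have := Md_ge k (idx k (o + e))
  unfold Nat.ModEq at h3
  have hmem' : (o + e) % Md k (idx k (o + e)) < 3 := hmem
  rw [h3, Nat.mod_eq_of_lt (by omega)] at hmem'
  omega

theorem crt (K : ℕ) (o : ℕ → ℕ) (ρ : ℕ → ℕ → ℕ) :
    ∃ M r, 0 < M ∧ ∀ n, n ≡ r [MOD M] → ∀ k < K, ∀ j < K, o k + n ≡ ρ k j [MOD Md k j] := by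
  let t := Finset.range K ×ˢ Finset.range K
  let s : ℕ × ℕ → ℕ := fun p => Md p.1 p.2
  have hs : ∀ i ∈ t, s i ≠ 0 := fun i _ => by have := Md_ge i.1 i.2; simp only [s]; omega
  have pp : Set.Pairwise (t : Set (ℕ × ℕ)) (Function.onFun Nat.Coprime s) := by
    intro a _ b _ hab
    apply Nat.coprime_fermatNumber_fermatNumber
    intro h
    apply hab
    have : Nat.pair a.1 a.2 = Nat.pair b.1 b.2 := by omega
    rw [Nat.pair_eq_pair] at this
    exact Prod.ext this.1 this.2
  obtain ⟨r, hr⟩ := Nat.chineseRemainderOfFinset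
    (fun p => ρ p.1 p.2 + (s p - 1) * o p.1) s t hs pp
  refine ⟨∏ i ∈ t, s i, r, Finset.prod_pos (fun i hi => Nat.pos_of_ne_zero (hs i hi)), ?_⟩
  intro n hn k hk j hj
  have hmem : (k, j) ∈ t := by simp [t, hk, hj]
  have h1 : n ≡ r [MOD s (k, j)] := hn.of_dvd (Finset.dvd_prod_of_mem _ hmem)
  have h2 := (h1.trans (hr _ hmem)).add_left (o k)
  refine h2.trans ?_
  have h3 := Md_ge k j
  have h4 : o k + (ρ k j + (Md k j - 1) * o k) = ρ k j + Md k j * o k := by
    obtain ⟨q, hq⟩ : ∃ q, Md k j = q + 1 := ⟨Md k j - 1, by omega⟩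
    rw [hq]; simp; ring
  simp only [s]
  rw [h4]
  exact Nat.add_mul_mod_self_left _ _ _

theorem exists_code [Countable F] {α : F} (h0 : α ≠ 0) (h1 : α ≠ 1) :
    ∃ κ : (ℕ →₀ F) → Finset (ℕ →₀ F),
      (∀ c : F, c ≠ 0 → ∀ v, κ (c • v) = κ v) ∧
      (∀ v, κ v ≠ {0} → 2 ≤ v.support.card) ∧
      ∀ Y : Submodule F (ℕ →₀ F), Tails Y → ∀ w y : ℕ →₀ F, w ≠ 0 → Blk w y →
        ∀ (s : Finset (ℕ →₀ F)) (N : ℕ), (∀ i ∈ w.support, i < N) → (∀ i ∈ y.support, i < N) →
        ∃ z ∈ Y, z ≠ 0 ∧ (∀ i ∈ z.support, N ≤ i) ∧ ∀ a b : F, a ≠ 0 → b ≠ 0 →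
          κ (a • w + b • y + z) = s ∧
          ∀ k, lo w < k → (a • w + b • y) k ≠ 0 → κ (fs k (a • w + b • y) + z) = {0} := by
  obtain ⟨e, he⟩ := exists_surjective_nat (Finset (ℕ →₀ F))
  let dec : ℕ → Finset (ℕ →₀ F) := fun j => Nat.casesOn j {0} e
  refine ⟨fun v => dec (idx (lo v) (osc v)), ?_, ?_, ?_⟩
  · intro c hc v; simp only [lo_smul hc, osc_smul hc]
  · intro v hv
    by_contra hlt
    apply hv
    have h2 : osc v = 0 := by
      have := oscL_le_length (lst v)
      have h3 : (lst v).length = v.support.card := by simp [lst]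
      unfold osc; omega
    have : idx (lo v) (osc v) = 0 := by
      apply Nat.eq_zero_of_le_zero
      apply Nat.sInf_le
      simp [h2]
    simp only [this, dec]
    rfl
  · intro Y hY w y hw hwy s N hwN hyN
    obtain ⟨m, hm⟩ := he s
    obtain ⟨M, r, hM, hr⟩ := crt (N + m + 2) (fun k => osc (fs k w) + osc (fs k y))
      (fun k j => if k = lo w ∧ j < m + 1 then 3 else 0)
    obtain ⟨z, hzY, hz0, hzN, hzr⟩ := residues h0 h1 hY M hM r N
    refine ⟨z, hzY, hz0, hzN, ?_⟩
    intro a b ha hb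
    have hsupp : ∀ i, (a • w + b • y) i ≠ 0 → i < N := by
      intro i hi
      by_contra hge
      apply hi
      have h3 : w i = 0 := by by_contra h; exact hge (hwN i (by simpa using h))
      have h4 : y i = 0 := by by_contra h; exact hge (hyN i (by simpa using h))
      simp [h3, h4]
    have main : ∀ k, (a • w + b • y) k ≠ 0 →
        lo (fs k (a • w + b • y) + z) = k ∧
        osc (fs k w) + osc (fs k y) + osc z ≤ osc (fs k (a • w + b • y) + z) ∧
        osc (fs k (a • w + b • y) + z) ≤ osc (fs k w) + osc (fs k y) + osc z + 2 := by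
      intro k hk
      have hkN := hsupp k hk
      have hz : ∀ i, i < N → z i = 0 := fun i hi => by
        by_contra h; have := hzN i (by simpa using h); omega
      refine ⟨lo_eq ?_ ?_, ?_⟩
      · rw [Finsupp.add_apply, fs_apply, if_pos le_rfl, hz k hkN, add_zero]; exact hk
      · intro i hi
        rw [Finsupp.add_apply, fs_apply, if_neg (by omega), hz i (by omega), add_zero]
      · have hb1 : Blk (fs k (a • w + b • y)) z := fun i hi j hj => by
          have := hsupp i (by simpa using (fs_supp hi).2); have := hzN j hj; omega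
        have hb2 : Blk (a • fs k w) (b • fs k y) :=
          Blk.smul (fun i hi j hj => hwy i (fs_supp hi).2 j (fs_supp hj).2) a b
        have e1 := osc_add_le hb1
        have e2 := osc_add_le hb2
        rw [osc_smul ha, osc_smul hb, ← fs_smul, ← fs_smul, ← fs_add] at e2
        omega
    have hylo : ∀ i, i ≤ lo w → y i = 0 := by
      intro i hi
      by_contra h
      have := hwy (lo w) (by simpa using lo_ne hw) i (by simpa using h)
      omega
    constructor
    · have hk : (a • w + b • y) (lo w) ≠ 0 := by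
        simp [hylo _ le_rfl, ha, lo_ne hw]
      have hfs : fs (lo w) (a • w + b • y) = a • w + b • y := by
        ext n; rw [fs_apply]; split_ifs with h
        · rfl
        · simp [hylo n (by omega), eq_zero_of_lt_lo (v := w) (i := n) (by omega)]
      obtain ⟨e1, e2, e3⟩ := main _ hk
      rw [hfs] at e1 e2 e3
      have hkN := hsupp _ hk
      have : idx (lo w) (osc (a • w + b • y + z)) = m + 1 := by
        refine idx_eq (o := osc (fs (lo w) w) + osc (fs (lo w) y) + osc z) ?_ ?_ e2 e3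
        · intro j hj
          have := hr _ hzr (lo w) (by omega) j (by omega)
          rwa [if_pos ⟨rfl, hj⟩] at this
        · have := hr _ hzr (lo w) (by omega) (m + 1) (by omega)
          rwa [if_neg (by omega)] at this
      simp only [e1, this, dec]
      exact hm
    · intro k hk hk0
      obtain ⟨e1, e2, e3⟩ := main _ hk0
      have hkN := hsupp _ hk0
      have : idx k (osc (fs k (a • w + b • y) + z)) = 0 := by
        refine idx_eq (o := osc (fs k w) + osc (fs k y) + osc z) (by omega) ?_ e2 e3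
        have := hr _ hzr k (by omega) 0 (by omega)
        rwa [if_neg (by omega)] at this
      simp only [e1, this, dec]
      rfl

end Pool.Agent.H.MP_5897b0_lc
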