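import Mathlib
import Pool.Agent.H.MP_5897b0_lc.B

set_option autoImplicit false

namespace Pool.Agent.H.MP_5897b0_lc

open Classical

variable {F : Type*} [Field F]

/-- chains of atoms -/
def Ch (κ : (ℕ →₀ F) → Finset (ℕ →₀ F)) (A : (ℕ →₀ F) → Prop) (B : Set (ℕ →₀ F)) : Prop :=
  ∀ x ∈ B, A x ∧ (↑(κ x) : Set (ℕ →₀ F)) ⊆ B ∧ ∀ y ∈ B, y = x ∨ y ∈ κ x ∨ x ∈ κ y

/-- from position m on, v is a multiple of the atom u plus an element of the span of its code -/
def Q (κ : (ℕ →₀ F) → Finset (ℕ →₀ F)) (A : (ℕ →₀ F) → Prop) (m : ℕ) (v u : ℕ →₀ F) : Prop :=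
  A u ∧ ∃ c : F, c ≠ 0 ∧ ∃ x ∈ Submodule.span F (↑(κ u) : Set (ℕ →₀ F)),
    ∀ n, m ≤ n → v n = c * u n + x n

/-- the recursive clause -/
def Phi (κ : (ℕ →₀ F) → Finset (ℕ →₀ F)) (A : (ℕ →₀ F) → Prop) (v : ℕ →₀ F) : Prop :=
  v ≠ 0 ∧ (∀ x ∈ κ v, ∀ i ∈ x.support, i < lo v) ∧ Ch κ A (↑(κ v)) ∧
    ¬ ∃ u, lo v < lo u ∧ Q κ A (lo v) v u

/-- measure -/
noncomputable def ms (v : ℕ →₀ F) : ℕ := ∑ i ∈ v.support, 2 ^ i

theorem span_zero {S : Set (ℕ →₀ F)} {k : ℕ} (h : ∀ x ∈ S, ∀ i ∈ x.support, i < k)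
    {x : ℕ →₀ F} (hx : x ∈ Submodule.span F S) {n : ℕ} (hn : k ≤ n) : x n = 0 := by
  induction hx using Submodule.span_induction with
  | mem x hx => by_contra h'; have := h x hx n (by simpa using h'); omega
  | zero => rfl
  | add x y _ _ h1 h2 => simp [h1, h2]
  | smul c x _ h1 => simp [h1]

theorem exists_atom (κ : (ℕ →₀ F) → Finset (ℕ →₀ F)) :
    ∃ A : (ℕ →₀ F) → Prop, ∀ v, A v ↔ Phi κ A v := by
  have wf : WellFounded (fun u v : ℕ →₀ F => ms u < ms v) := (measure ms).wf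
  let A : (ℕ →₀ F) → Prop :=
    wf.fix (fun v IH => Phi κ (fun u => ∃ h : ms u < ms v, IH u h) v)
  have hA : ∀ v, A v ↔ Phi κ (fun u => ms u < ms v ∧ A u) v := by
    intro v
    have : A v = Phi κ (fun u => ∃ _ : ms u < ms v, A u) v := wf.fix_eq _ v
    rw [this]
    simp only [exists_prop]
  refine ⟨A, fun v => (hA v).trans ?_⟩
  unfold Phi
  refine and_congr_right fun hv => and_congr_right fun hb => and_congr ?_ (not_congr ?_)
  · unfold Ch
    refine forall₂_congr fun x hx => and_congr_left fun _ => ⟨fun h => h.2, fun h => ⟨?_, h⟩⟩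
    calc ms x < 2 ^ lo v := Nat.geomSum_lt le_rfl (hb x hx)
      _ ≤ ms v := Finset.single_le_sum (f := fun i => 2 ^ i) (fun _ _ => Nat.zero_le _)
          (by simpa using lo_ne hv)
  · refine exists_congr fun u => and_congr_right fun hlo => ?_
    unfold Q
    refine and_congr_left fun ⟨c, hc, x, hx, h⟩ => ⟨fun h => h.2, fun hu => ⟨?_, hu⟩⟩
    have hub := ((hA u).1 hu).2.1
    apply Finset.sum_lt_sum_of_subset (i := lo v)
    · intro i hi
      have hi' : u i ≠ 0 := by simpa using hi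
      have h1 := lo_le hi'
      have h2 := h i (by omega)
      rw [span_zero (k := lo u) (fun y hy => hub y hy) hx h1, add_zero] at h2
      simp [h2, hc, hi']
    · simpa using lo_ne hv
    · simpa using eq_zero_of_lt_lo hlo
    · positivity
    · intros; positivity

section
variable {κ : (ℕ →₀ F) → Finset (ℕ →₀ F)} {A : (ℕ →₀ F) → Prop}

theorem below (hA : ∀ v, A v ↔ Phi κ A v) {u x : ℕ →₀ F} (hu : A u)
    (hx : x ∈ Submodule.span F (↑(κ u) : Set (ℕ →₀ F))) {n : ℕ} (hn : lo u ≤ n) : x n = 0 :=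
  span_zero (k := lo u) (fun y hy => ((hA u).1 hu).2.1 y hy) hx hn

theorem lo_lt (hA : ∀ v, A v ↔ Phi κ A v) {u x : ℕ →₀ F} (hu : A u) (hx : x ∈ κ u) :
    lo x < lo u := by
  have h := (hA u).1 hu
  have hx0 : x ≠ 0 := ((hA x).1 (h.2.2.1 x hx).1).1
  exact h.2.1 x hx _ (by simpa using lo_ne hx0)

theorem uniq_aux (hA : ∀ v, A v ↔ Phi κ A v) {m : ℕ} {v u u' : ℕ →₀ F} (h : Q κ A m v u)
    (h' : Q κ A m v u') (hm : m ≤ lo u) : ¬ lo u < lo u' := by
  intro hlt
  obtain ⟨hu, c, hc, x, hx, e⟩ := h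
  obtain ⟨hu', c', hc', x', hx', e'⟩ := h'
  refine ((hA u).1 hu).2.2.2 ⟨u', hlt, hu', c' / c, div_ne_zero hc' hc, c⁻¹ • x',
    Submodule.smul_mem _ _ hx', fun n hn => ?_⟩
  have h1 := e n (by omega)
  rw [below hA hu hx hn, add_zero, e' n (by omega)] at h1
  simp only [Finsupp.smul_apply, smul_eq_mul]
  field_simp
  linear_combination -h1

theorem uniq (hA : ∀ v, A v ↔ Phi κ A v) {m : ℕ} {v u u' : ℕ →₀ F} (h : Q κ A m v u)
    (h' : Q κ A m v u') (hm : m ≤ lo u) (hm' : m ≤ lo u') :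
    lo u = lo u' ∧ ∃ c : F, c ≠ 0 ∧ u' = c • u := by
  have e0 : lo u = lo u' :=
    le_antisymm (not_lt.1 (uniq_aux hA h' h hm')) (not_lt.1 (uniq_aux hA h h' hm))
  refine ⟨e0, ?_⟩
  obtain ⟨hu, c, hc, x, hx, e⟩ := h
  obtain ⟨hu', c', hc', x', hx', e'⟩ := h'
  refine ⟨c / c', div_ne_zero hc hc', ?_⟩
  ext n
  simp only [Finsupp.smul_apply, smul_eq_mul]
  by_cases hn : lo u ≤ n
  · have h1 := e n (by omega)
    rw [below hA hu hx hn, add_zero, e' n (by omega), below hA hu' hx' (by omega), add_zero] at h1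
    field_simp
    linear_combination h1
  · rw [eq_zero_of_lt_lo (v := u) (by omega), eq_zero_of_lt_lo (v := u') (by omega), mul_zero]

theorem top (hA : ∀ v, A v ↔ Phi κ A v) {B : Set (ℕ →₀ F)} (hB : Ch κ A B) {x : ℕ →₀ F}
    (hx : x ∈ Submodule.span F B) (hx0 : x ≠ 0) : ∃ u ∈ B, Q κ A 0 x u := by
  obtain ⟨T, hT, hxT⟩ := Submodule.mem_span_finite_of_mem_span hx
  clear hx
  revert hT x
  refine Finset.induction_on_max_value (motive := fun T : Finset (ℕ →₀ F) =>
    ∀ {x : ℕ →₀ F}, x ≠ 0 → (↑T : Set (ℕ →₀ F)) ⊆ B →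
      x ∈ Submodule.span F (↑T : Set (ℕ →₀ F)) → ∃ u ∈ B, Q κ A 0 x u) lo T ?_ ?_
  · intro x hx0 _ hxT
    simp at hxT; exact absurd hxT hx0
  · intro a T haT hmax ih x hx0 hT hxT
    rw [Finset.coe_insert, Submodule.mem_span_insert] at hxT
    obtain ⟨c, x', hx', rfl⟩ := hxT
    have haB : a ∈ B := hT (by simp)
    have hTB : (↑T : Set (ℕ →₀ F)) ⊆ B := fun y hy => hT (by simp [Finset.mem_coe.1 hy])
    by_cases hc : c = 0
    · subst hc
      simp only [zero_smul, zero_add] at hx0 ⊢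
      exact ih hx0 hTB hx'
    · refine ⟨a, haB, (hB a haB).1, c, hc, x', Submodule.span_mono ?_ hx', fun n _ => by simp⟩
      intro y hy
      rcases (hB a haB).2.2 y (hTB hy) with h | h | h
      · exact absurd (h ▸ hy) haT
      · exact h
      · exact absurd (lo_lt hA (hB y (hTB hy)).1 h) (not_lt.2 (hmax y hy))

theorem cut (hA : ∀ v, A v ↔ Phi κ A v) {B : Set (ℕ →₀ F)} (hB : Ch κ A B) {x w : ℕ →₀ F}
    (hw : w ≠ 0) (hx : x ∈ Submodule.span F B) (hxw : ∀ n, lo w ≤ n → x n = w n) :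
    ∃ k, lo w < k ∧ (∀ y : ℕ →₀ F, Blk w y → ∀ i ∈ y.support, k ≤ i) ∧
      ∀ x' ∈ Submodule.span F B, fs k x' ∈ Submodule.span F B := by
  have hne : w.support.Nonempty := Finsupp.support_nonempty_iff.2 hw
  set H := w.support.max' hne with hH
  have hHm : H ∈ w.support := Finset.max'_mem _ _
  have hle : ∀ i, w i ≠ 0 → i ≤ H := fun i hi => Finset.le_max' _ _ (by simpa using hi)
  have hloH : lo w ≤ H := hle _ (lo_ne hw)
  have hxH : x H ≠ 0 := by rw [hxw H hloH]; simpa using hHm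
  have hx0 : x ≠ 0 := by rintro rfl; exact hxH rfl
  obtain ⟨u, huB, hu, c, hc, x1, hx1, e⟩ := top hA hB hx hx0
  have hu0 : u ≠ 0 := ((hA u).1 hu).1
  have huH : ∀ n, H < n → u n = 0 := by
    intro n hn
    by_contra h
    have h1 := e n (Nat.zero_le _)
    rw [below hA hu hx1 (lo_le h), add_zero, hxw n (by omega)] at h1
    have : w n ≠ 0 := by rw [h1]; exact mul_ne_zero hc h
    have := hle n this; omega
  have hlu : lo u ≤ H := by
    by_contra h; exact lo_ne hu0 (huH _ (not_le.1 h))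
  have huH' : u H ≠ 0 := by
    intro h
    have h1 := e H (Nat.zero_le _)
    rw [below hA hu hx1 hlu, h] at h1
    exact hxH (by simpa using h1)
  refine ⟨H + 1, by omega, fun y hy i hi => hy H hHm i hi, ?_⟩
  intro x' hx'
  induction hx' using Submodule.span_induction with
  | mem a ha =>
    rcases (hB u huB).2.2 a ha with h | h | h
    · have : fs (H + 1) a = 0 := by
        ext n; rw [fs_apply]; split_ifs with hn
        · rw [h]; exact huH n hn
        · rfl
      rw [this]; exact Submodule.zero_mem _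
    · have : fs (H + 1) a = 0 := by
        ext n; rw [fs_apply]; split_ifs with hn
        · exact below hA hu (Submodule.subset_span h) (by omega)
        · rfl
      rw [this]; exact Submodule.zero_mem _
    · have h2 : H < lo a := ((hA a).1 (hB a ha).1).2.1 u h H (by simpa using huH')
      have : fs (H + 1) a = a := by
        ext n; rw [fs_apply]; split_ifs with hn
        · rfl
        · exact (eq_zero_of_lt_lo (by omega)).symm
      rw [this]; exact Submodule.subset_span ha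
  | zero =>
    have : fs (H + 1) (0 : ℕ →₀ F) = 0 := by ext n; simp [fs_apply]
    rw [this]; exact Submodule.zero_mem _
  | add a b _ _ h1 h2 => rw [fs_add]; exact Submodule.add_mem _ h1 h2
  | smul c a _ h1 => rw [fs_smul]; exact Submodule.smul_mem _ _ h1

theorem finite_of_bound (W : Submodule F (ℕ →₀ F)) (N : ℕ)
    (h : ∀ w ∈ W, ∀ i ∈ w.support, i < N) : Module.Finite F W := by
  let f : W →ₗ[F] (Fin N → F) :=
    LinearMap.pi fun i => (Finsupp.lapply (i : ℕ)).comp W.subtype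
  refine Module.Finite.of_injective f ?_
  rw [injective_iff_map_eq_zero]
  intro w hw
  ext n
  by_contra hn
  have hlt := h w w.2 n (by simpa using hn)
  exact hn (by simpa [f] using congrFun hw ⟨n, hlt⟩)

theorem tails_of_not_finite {W : Submodule F (ℕ →₀ F)} (h : ¬ Module.Finite F W) : Tails W := by
  intro N
  by_contra hc
  apply h
  let f : W →ₗ[F] (Fin N → F) :=
    LinearMap.pi fun i => (Finsupp.lapply (i : ℕ)).comp W.subtype
  refine Module.Finite.of_injective f ?_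
  rw [injective_iff_map_eq_zero]
  intro w hw
  by_contra hw0
  refine hc ⟨w, w.2, fun h => hw0 (Subtype.ext h), fun i hi => ?_⟩
  by_contra hlt
  have := congrFun hw ⟨i, not_le.1 hlt⟩
  simp [f] at this
  exact (Finsupp.mem_support_iff.1 hi) this

theorem not_finite_of_unbdd {W : Submodule F (ℕ →₀ F)}
    (h : ∀ N, ∃ w ∈ W, ∃ i ∈ w.support, N ≤ i) : ¬ Module.Finite F W := by
  intro hf
  obtain ⟨T, hT⟩ : W.FG := Module.Finite.iff_fg.1 hf
  obtain ⟨w, hw, i, hi, hN⟩ := h (T.sup (fun x => x.support.sup id) + 1)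
  rw [← hT] at hw
  refine (Finsupp.mem_support_iff.1 hi) (span_zero (fun x hx j hj => ?_) hw hN)
  have h1 : j ≤ x.support.sup id := Finset.le_sup (f := id) hj
  have h2 : x.support.sup id ≤ T.sup (fun x => x.support.sup id) :=
    Finset.le_sup (f := fun x : ℕ →₀ F => x.support.sup id) hx
  omega

theorem ad_aux (hκ : ∀ c : F, c ≠ 0 → ∀ v, κ (c • v) = κ v) (hA : ∀ v, A v ↔ Phi κ A v)
    {B B' : Set (ℕ →₀ F)} (hB : Ch κ A B) (hB' : Ch κ A B') {x : ℕ →₀ F} (hx : x ∈ B)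
    (hx' : x ∉ B') :
    Module.Finite F ↥(Submodule.span F B ⊓ Submodule.span F B') := by
  obtain ⟨K, hK⟩ := exists_bound x
  have hx0 : x ≠ 0 := ((hA x).1 (hB x hx).1).1
  have hloK : lo x < K := hK _ (by simpa using lo_ne hx0)
  refine finite_of_bound _ K ?_
  intro w hw i hi
  have hw0 : w ≠ 0 := by rintro rfl; simp at hi
  obtain ⟨u, huB, hu⟩ := top hA hB hw.1 hw0
  obtain ⟨u', huB', hu'⟩ := top hA hB' hw.2 hw0
  obtain ⟨-, c, hc, e⟩ := uniq hA hu hu' (Nat.zero_le _) (Nat.zero_le _)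
  have hk : κ u' = κ u := by rw [e, hκ c hc]
  obtain ⟨hAu, d, hd, x1, hx1, e1⟩ := hu
  have key : lo u ≤ lo x ∧ ∀ j ∈ u.support, j < K := by
    rcases (hB x hx).2.2 u huB with h | h | h
    · rw [h]; exact ⟨le_rfl, hK⟩
    · refine ⟨(lo_lt hA (hB x hx).1 h).le, fun j hj => ?_⟩
      have := ((hA x).1 (hB x hx).1).2.1 u h j hj; omega
    · exact absurd ((hB' u' huB').2.1 (by rw [hk]; exact h)) hx'
  by_contra hge
  apply Finsupp.mem_support_iff.1 hi
  rw [e1 i (Nat.zero_le _), below hA hAu hx1 (by omega)]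
  have : u i = 0 := by
    by_contra h; have := key.2 i (by simpa using h); omega
  simp [this]

theorem ad (hκ : ∀ c : F, c ≠ 0 → ∀ v, κ (c • v) = κ v) (hA : ∀ v, A v ↔ Phi κ A v)
    {B B' : Set (ℕ →₀ F)} (hB : Ch κ A B) (hB' : Ch κ A B') (hne : B ≠ B') :
    Module.Finite F ↥(Submodule.span F B ⊓ Submodule.span F B') := by
  by_cases h : B ⊆ B'
  · have h2 : ¬ B' ⊆ B := fun h' => hne (Set.Subset.antisymm h h')
    obtain ⟨x, hx, hx'⟩ := Set.not_subset.1 h2
    rw [inf_comm]; exact ad_aux hκ hA hB' hB hx hx'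
  · obtain ⟨x, hx, hx'⟩ := Set.not_subset.1 h
    exact ad_aux hκ hA hB hB' hx hx'

end

end Pool.Agent.H.MP_5897b0_lc
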