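import Mathlib
import Pool.Agent.H.MP_5897b0_lc.C

set_option autoImplicit false

namespace Pool.Agent.H.MP_5897b0_lc

open Classical

variable {F : Type*} [Field F]
variable {κ : (ℕ →₀ F) → Finset (ℕ →₀ F)} {A : (ℕ →₀ F) → Prop}

theorem branch_of_step {Y : Submodule F (ℕ →₀ F)} (P : Finset (ℕ →₀ F) → Prop)
    (t0 : Finset (ℕ →₀ F)) (h0 : P t0) (hP : ∀ t, P t → Ch κ A (↑t))
    (hs : ∀ t, P t → ∀ N, ∃ t', P t' ∧ t ⊆ t' ∧ ∃ y ∈ Y,
      y ∈ Submodule.span F (↑t' : Set (ℕ →₀ F)) ∧ ∃ i ∈ y.support, N ≤ i) :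
    ∃ B, Ch κ A B ∧ ¬ Module.Finite F ↥(Y ⊓ Submodule.span F B) := by
  choose f hf1 hf2 hf3 using hs
  let seq : ℕ → {t // P t} := fun n =>
    Nat.rec ⟨t0, h0⟩ (fun n t => ⟨f t.1 t.2 n, hf1 t.1 t.2 n⟩) n
  have hmono : Monotone (fun n => (seq n).1) :=
    monotone_nat_of_le_succ fun n => hf2 (seq n).1 (seq n).2 n
  refine ⟨⋃ n, (((seq n).1 : Finset (ℕ →₀ F)) : Set (ℕ →₀ F)), ?_, not_finite_of_unbdd fun N => ?_⟩
  · intro x hx
    obtain ⟨n, hn⟩ := Set.mem_iUnion.1 hx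
    refine ⟨(hP _ (seq n).2 x hn).1,
      (hP _ (seq n).2 x hn).2.1.trans (Set.subset_iUnion (fun n => (((seq n).1 : Finset (ℕ →₀ F)) : Set (ℕ →₀ F))) n), ?_⟩
    intro y hy
    obtain ⟨m, hm⟩ := Set.mem_iUnion.1 hy
    exact (hP _ (seq (max n m)).2 x (hmono (le_max_left n m) hn)).2.2 y
      (hmono (le_max_right n m) hm)
  · obtain ⟨y, hy, hy2, i, hi, hN⟩ := hf3 (seq N).1 (seq N).2 N
    exact ⟨y, ⟨hy, Submodule.span_mono
      (Set.subset_iUnion (fun n => (((seq n).1 : Finset (ℕ →₀ F)) : Set (ℕ →₀ F))) (N + 1)) hy2⟩, i, hi, hN⟩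

theorem step {α : F} (h0 : α ≠ 0) (h1 : α ≠ 1)
    (hκ : ∀ c : F, c ≠ 0 → ∀ v, κ (c • v) = κ v) (hA : ∀ v, A v ↔ Phi κ A v)
    {Y : Submodule F (ℕ →₀ F)}
    (h3 : ∀ w y : ℕ →₀ F, w ≠ 0 → Blk w y →
        ∀ (s : Finset (ℕ →₀ F)) (N : ℕ), (∀ i ∈ w.support, i < N) → (∀ i ∈ y.support, i < N) →
        ∃ z ∈ Y, z ≠ 0 ∧ (∀ i ∈ z.support, N ≤ i) ∧ ∀ a b : F, a ≠ 0 → b ≠ 0 →
          κ (a • w + b • y + z) = s ∧
          ∀ k, lo w < k → (a • w + b • y) k ≠ 0 → κ (fs k (a • w + b • y) + z) = {0})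
    {s : Finset (ℕ →₀ F)} (hs : Ch κ A (↑s)) {w : ℕ →₀ F} (hwY : w ∈ Y) (hw : w ≠ 0)
    (hsw : ∀ x ∈ s, ∀ i ∈ x.support, i < lo w)
    (hno : ∀ v ∈ Y, κ v = s → lo v = lo w → ¬ A v)
    {y : ℕ →₀ F} (hyY : y ∈ Y) (hwy : Blk w y) (N : ℕ) :
    ∃ z ∈ Y, z ≠ 0 ∧ Blk w z ∧ (∀ i ∈ z.support, N ≤ i) ∧ ∃ u, Q κ A 0 z u ∧
      y ∈ Submodule.span F (↑(κ u) : Set (ℕ →₀ F)) := by
  obtain ⟨K1, hK1⟩ := exists_bound w
  obtain ⟨K2, hK2⟩ := exists_bound y
  set N' := K1 + K2 + N with hN'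
  obtain ⟨z, hzY, hz0, hzN, hz⟩ := h3 w y hw hwy s N' (fun i hi => by have := hK1 i hi; omega)
    (fun i hi => by have := hK2 i hi; omega)
  have hloK : lo w < K1 := hK1 _ (by simpa using lo_ne hw)
  have hzlow : ∀ i, i < N' → z i = 0 := fun i hi => by
    by_contra h; have := hzN i (by simpa using h); omega
  have hwhi : ∀ i, N' ≤ i → w i = 0 := fun i hi => by
    by_contra h; have := hK1 i (by simpa using h); omega
  have hyhi : ∀ i, N' ≤ i → y i = 0 := fun i hi => by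
    by_contra h; have := hK2 i (by simpa using h); omega
  have hylo : ∀ i, i ≤ lo w → y i = 0 := by
    intro i hi
    by_contra h
    have := hwy (lo w) (by simpa using lo_ne hw) i (by simpa using h)
    omega
  have blk : ∀ a b : F, a ≠ 0 → b ≠ 0 → ∃ u, A u ∧ N' ≤ lo u ∧ ∃ c : F, c ≠ 0 ∧
      ∃ x ∈ Submodule.span F (↑(κ u) : Set (ℕ →₀ F)),
        ∀ n, lo w ≤ n → a * w n + b * y n + z n = c * u n + x n := by
    intro a b ha hb
    obtain ⟨e1, e2⟩ := hz a b ha hb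
    have hv : (a • w + b • y + z) (lo w) ≠ 0 := by
      simp [hylo _ le_rfl, hzlow (lo w) (by omega), ha, lo_ne hw]
    have hlo : lo (a • w + b • y + z) = lo w := by
      refine lo_eq hv fun i hi => ?_
      simp [hylo i hi.le, hzlow i (by omega), eq_zero_of_lt_lo hi]
    have hnA := hno _ (Y.add_mem (Y.add_mem (Y.smul_mem a hwY) (Y.smul_mem b hyY)) hzY) e1 hlo
    rw [hA] at hnA
    unfold Phi at hnA
    rw [e1, hlo] at hnA
    have hv0 : a • w + b • y + z ≠ 0 := by intro h; rw [h] at hv; exact hv rfl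
    obtain ⟨u, hlt, hu, c, hc, x, hx, e⟩ : ∃ u, lo w < lo u ∧ Q κ A (lo w) (a • w + b • y + z) u := by
      by_contra h; exact hnA ⟨hv0, hsw, hs, h⟩
    refine ⟨u, hu, ?_, c, hc, x, hx, fun n hn => by simpa using e n hn⟩
    have hu0 : u ≠ 0 := ((hA u).1 hu).1
    by_contra hlt2
    push Not at hlt2
    have e3 := e (lo u) hlt.le
    rw [below hA hu hx le_rfl, add_zero, Finsupp.add_apply, hzlow _ hlt2, add_zero] at e3
    have e4 := e2 (lo u) hlt (by rw [e3]; exact mul_ne_zero hc (lo_ne hu0))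
    have e5 : fs (lo u) (a • w + b • y) + z = c • u := by
      ext n
      rw [Finsupp.add_apply, fs_apply, Finsupp.smul_apply, smul_eq_mul]
      split_ifs with hn
      · have := e n (by omega)
        rw [below hA hu hx hn, add_zero] at this
        rw [← this]; rfl
      · rw [hzlow n (by omega), eq_zero_of_lt_lo (v := u) (by omega)]; simp
    rw [e5, hκ c hc] at e4
    have := ((hA u).1 hu).2.2.1 0 (by rw [e4]; simp)
    exact ((hA 0).1 this.1).1 rfl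
  obtain ⟨u1, hu1, hl1, c1, hc1, x1, hx1, e1⟩ := blk 1 1 one_ne_zero one_ne_zero
  obtain ⟨u2, hu2, hl2, c2, hc2, x2, hx2, e2⟩ := blk α 1 h0 one_ne_zero
  obtain ⟨u3, hu3, hl3, c3, hc3, x3, hx3, e3⟩ := blk 1 α one_ne_zero h0
  have q : ∀ (a b : F) (u : ℕ →₀ F) (c : F) (x : ℕ →₀ F), A u → c ≠ 0 →
      x ∈ Submodule.span F (↑(κ u) : Set (ℕ →₀ F)) →
      (∀ n, lo w ≤ n → a * w n + b * y n + z n = c * u n + x n) → Q κ A N' z u := by
    intro a b u c x hu hc hx e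
    refine ⟨hu, c, hc, x, hx, fun n hn => ?_⟩
    have := e n (by omega)
    rwa [hwhi n hn, hyhi n hn, mul_zero, mul_zero, zero_add, zero_add] at this
  have same : ∀ (a b : F) (u : ℕ →₀ F) (c : F) (x : ℕ →₀ F), A u → N' ≤ lo u → c ≠ 0 →
      x ∈ Submodule.span F (↑(κ u) : Set (ℕ →₀ F)) →
      (∀ n, lo w ≤ n → a * w n + b * y n + z n = c * u n + x n) →
      κ u = κ u1 ∧ ∀ n, c * u n = c1 * u1 n := by
    intro a b u c x hu hl hc hx e
    obtain ⟨el, d, hd, ed⟩ := uniq hA (q _ _ _ _ _ hu1 hc1 hx1 e1) (q _ _ _ _ _ hu hc hx e) hl1 hl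
    refine ⟨by rw [ed, hκ d hd], fun n => ?_⟩
    by_cases hn : lo u ≤ n
    · have f1 := e n (by omega)
      have f2 := e1 n (by omega)
      rw [hwhi n (by omega), hyhi n (by omega)] at f1 f2
      rw [below hA hu hx hn] at f1
      rw [below hA hu1 hx1 (by omega)] at f2
      linear_combination f2 - f1
    · rw [eq_zero_of_lt_lo (v := u) (by omega), eq_zero_of_lt_lo (v := u1) (by omega)]; simp
  obtain ⟨k2, s2⟩ := same _ _ _ _ _ hu2 hl2 hc2 hx2 e2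
  obtain ⟨k3, s3⟩ := same _ _ _ _ _ hu3 hl3 hc3 hx3 e3
  rw [k2] at hx2
  rw [k3] at hx3
  have hα : α - 1 ≠ 0 := sub_ne_zero.2 h1
  have hch : Ch κ A (↑(κ u1)) := ((hA u1).1 hu1).2.2.1
  have hxw : (α - 1)⁻¹ • (x2 - x1) ∈ Submodule.span F (↑(κ u1) : Set (ℕ →₀ F)) :=
    Submodule.smul_mem _ _ (Submodule.sub_mem _ hx2 hx1)
  have hxy : (α - 1)⁻¹ • (x3 - x1) ∈ Submodule.span F (↑(κ u1) : Set (ℕ →₀ F)) :=
    Submodule.smul_mem _ _ (Submodule.sub_mem _ hx3 hx1)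
  have ew : ∀ n, lo w ≤ n → ((α - 1)⁻¹ • (x2 - x1)) n = w n := by
    intro n hn
    have f1 := e1 n hn
    have f2 := e2 n hn
    rw [s2] at f2
    simp only [Finsupp.smul_apply, Finsupp.sub_apply, smul_eq_mul]
    field_simp
    linear_combination f1 - f2
  have ey : ∀ n, lo w ≤ n → ((α - 1)⁻¹ • (x3 - x1)) n = y n := by
    intro n hn
    have f1 := e1 n hn
    have f2 := e3 n hn
    rw [s3] at f2
    simp only [Finsupp.smul_apply, Finsupp.sub_apply, smul_eq_mul]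
    field_simp
    linear_combination f1 - f2
  have hwz : Blk w z := fun i hi j hj => by have := hK1 i hi; have := hzN j hj; omega
  obtain ⟨k, hk1, hk2, hk3⟩ := cut hA hch hw hxw ew
  have hzk : ∀ n, n < k → z n = 0 := fun n hn => by
    by_contra h; have := hk2 z hwz n (by simpa using h); omega
  have hyk : ∀ n, n < k → y n = 0 := fun n hn => by
    by_contra h; have := hk2 y hwy n (by simpa using h); omega
  have hwu : Blk w u1 := fun i hi j hj => by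
    have := hK1 i hi; have := lo_le (Finsupp.mem_support_iff.1 hj); omega
  have huk : ∀ n, n < k → u1 n = 0 := fun n hn => by
    by_contra h; have := hk2 u1 hwu n (by simpa using h); omega
  refine ⟨z, hzY, hz0, hwz, fun i hi => by have := hzN i hi; omega, u1,
    ⟨hu1, c1, hc1, _, hk3 _ (Submodule.sub_mem _ (Submodule.sub_mem _ hx1 hxw) hxy),
      fun n _ => ?_⟩, ?_⟩
  · rw [fs_apply]
    split_ifs with hn
    · rw [Finsupp.sub_apply, Finsupp.sub_apply, ew n (by omega), ey n (by omega)]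
      linear_combination e1 n (by omega)
    · rw [hzk n (by omega), huk n (by omega)]; simp
  · have : y = fs k ((α - 1)⁻¹ • (x3 - x1)) := by
      ext n; rw [fs_apply]
      split_ifs with hn
      · exact (ey n (by omega)).symm
      · exact hyk n (by omega)
    rw [this]; exact hk3 _ hxy

theorem exists_branch {α : F} (h0 : α ≠ 0) (h1 : α ≠ 1)
    (hκ : ∀ c : F, c ≠ 0 → ∀ v, κ (c • v) = κ v) (hA : ∀ v, A v ↔ Phi κ A v)
    {Y : Submodule F (ℕ →₀ F)} (hY : Tails Y)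
    (h3 : ∀ w y : ℕ →₀ F, w ≠ 0 → Blk w y →
        ∀ (s : Finset (ℕ →₀ F)) (N : ℕ), (∀ i ∈ w.support, i < N) → (∀ i ∈ y.support, i < N) →
        ∃ z ∈ Y, z ≠ 0 ∧ (∀ i ∈ z.support, N ≤ i) ∧ ∀ a b : F, a ≠ 0 → b ≠ 0 →
          κ (a • w + b • y + z) = s ∧
          ∀ k, lo w < k → (a • w + b • y) k ≠ 0 → κ (fs k (a • w + b • y) + z) = {0}) :
    ∃ B, Ch κ A B ∧ ¬ Module.Finite F ↥(Y ⊓ Submodule.span F B) := by
  by_cases hc : ∀ s : Finset (ℕ →₀ F), Ch κ A (↑s) → ∀ N, ∃ v ∈ Y, κ v = s ∧ N ≤ lo v ∧ A v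
  · refine branch_of_step (fun t => Ch κ A (↑t)) ∅ (fun x hx => by simp at hx) (fun _ h => h) ?_
    intro t ht N
    obtain ⟨v, hvY, hv, hN, hAv⟩ := hc t ht N
    refine ⟨insert v t, ?_, Finset.subset_insert _ _, v, hvY,
      Submodule.subset_span (by simp), lo v, by simpa using lo_ne ((hA v).1 hAv).1, hN⟩
    intro x hx
    rw [Finset.coe_insert] at hx ⊢
    rcases hx with rfl | hx
    · refine ⟨hAv, by rw [hv]; exact Set.subset_insert _ _, fun y hy => ?_⟩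
      rcases hy with rfl | hy
      · exact Or.inl rfl
      · exact Or.inr (Or.inl (by rw [hv]; exact hy))
    · refine ⟨(ht x hx).1, (ht x hx).2.1.trans (Set.subset_insert _ _), fun y hy => ?_⟩
      rcases hy with rfl | hy
      · exact Or.inr (Or.inr (by rw [hv]; exact hx))
      · exact (ht x hx).2.2 y hy
  · push Not at hc
    obtain ⟨s, hs, N0, hno⟩ := hc
    obtain ⟨w, hwY, hw, hwN⟩ := hY (N0 + s.sup (fun x => x.support.sup id) + 1)
    have hlo := hwN (lo w) (by simpa using lo_ne hw)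
    have hsw : ∀ x ∈ s, ∀ i ∈ x.support, i < lo w := by
      intro x hx i hi
      have h1 : i ≤ x.support.sup id := Finset.le_sup (f := id) hi
      have h2 : x.support.sup id ≤ s.sup (fun x => x.support.sup id) :=
        Finset.le_sup (f := fun x : ℕ →₀ F => x.support.sup id) hx
      omega
    have st := fun {y : ℕ →₀ F} (hyY : y ∈ Y) (hwy : Blk w y) (N : ℕ) =>
      step h0 h1 hκ hA h3 hs hwY hw hsw (fun v hv e1 e2 => hno v hv e1 (by omega)) hyY hwy N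
    let P : Finset (ℕ →₀ F) → Prop := fun t =>
      ∃ y ∈ Y, y ≠ 0 ∧ Blk w y ∧ ∃ u, Q κ A 0 y u ∧ κ u = t
    have sub : ∀ y u u', y ≠ 0 → Q κ A 0 y u → A u' →
        y ∈ Submodule.span F (↑(κ u') : Set (ℕ →₀ F)) → κ u ⊆ κ u' := by
      intro y u u' hy hq hu' hy'
      have hch := ((hA u').1 hu').2.2.1
      obtain ⟨u'', hm, hq'⟩ := top hA hch hy' hy
      obtain ⟨-, c, hc, e⟩ := uniq hA hq hq' (Nat.zero_le _) (Nat.zero_le _)
      have : κ u'' = κ u := by rw [e, hκ c hc]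
      rw [← this]
      exact Finset.coe_subset.1 (hch u'' hm).2.1
    obtain ⟨z0, hz0Y, hz0, hb0, -, u0, hq0, -⟩ := st Y.zero_mem (fun i _ j hj => by simp at hj) 0
    refine branch_of_step P (κ u0) ⟨z0, hz0Y, hz0, hb0, u0, hq0, rfl⟩ ?_ ?_
    · rintro t ⟨y, -, -, -, u, hq, rfl⟩
      exact ((hA u).1 hq.1).2.2.1
    · rintro t ⟨y, hyY, hy0, hb, u, hq, rfl⟩ N
      obtain ⟨z1, hz1Y, hz1, hb1, hN1, u1, hq1, hy1⟩ := st hyY hb N
      obtain ⟨z2, hz2Y, hz2, hb2, -, u2, hq2, hy2⟩ := st hz1Y hb1 0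
      refine ⟨κ u2, ⟨z2, hz2Y, hz2, hb2, u2, hq2, rfl⟩,
        (sub _ _ _ hy0 hq hq1.1 hy1).trans (sub _ _ _ hz1 hq1 hq2.1 hy2), z1, hz1Y, hy2,
        lo z1, by simpa using lo_ne hz1, hN1 _ (by simpa using lo_ne hz1)⟩

end Pool.Agent.H.MP_5897b0_lc
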