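import Mathlib
import Pool.Agent.H.MP_5897b0_lc.D

set_option autoImplicit false

namespace Pool.Agent.H.MP_5897b0_lc

open Classical

variable {F : Type*} [Field F]
variable {κ : (ℕ →₀ F) → Finset (ℕ →₀ F)} {A : (ℕ →₀ F) → Prop}

theorem lo_injOn (hA : ∀ v, A v ↔ Phi κ A v) {B : Set (ℕ →₀ F)} (hB : Ch κ A B) :
    Set.InjOn lo B := by
  intro x hx y hy h
  rcases (hB x hx).2.2 y hy with e | e | e
  · exact e.symm
  · exact absurd (lo_lt hA (hB x hx).1 e) (by omega)
  · exact absurd (lo_lt hA (hB y hy).1 e) (by omega)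

theorem block_enum (hA : ∀ v, A v ↔ Phi κ A v) {B : Set (ℕ →₀ F)} (hB : Ch κ A B)
    (hi : B.Infinite) : ∃ x : ℕ → (ℕ →₀ F), (∀ n, x n ≠ 0) ∧
      (∀ n, ∀ i ∈ (x n).support, ∀ j ∈ (x (n + 1)).support, i < j) ∧ Set.range x = B := by
  have hS : (Set.ofPred (fun n => n ∈ lo '' B)).Infinite := hi.image (lo_injOn hA hB)
  have hm := fun n => Nat.nth_mem_of_infinite hS n
  choose x hxB hx using hm
  refine ⟨x, fun n => ((hA _).1 (hB _ (hxB n)).1).1, fun n i hi j hj => ?_, ?_⟩
  · have hlt : lo (x n) < lo (x (n + 1)) := by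
      rw [hx, hx]; exact Nat.nth_strictMono hS (Nat.lt_succ_self n)
    rcases (hB _ (hxB (n + 1))).2.2 _ (hxB n) with e | e | e
    · rw [e] at hlt; omega
    · have := ((hA _).1 (hB _ (hxB (n + 1))).1).2.1 _ e i hi
      have := lo_le (Finsupp.mem_support_iff.1 hj); omega
    · have := lo_lt hA (hB _ (hxB n)).1 e; omega
  · apply Set.Subset.antisymm
    · rintro _ ⟨n, rfl⟩; exact hxB n
    · intro b hb
      obtain ⟨n, hn⟩ := Nat.subset_range_nth (p := fun n => n ∈ lo '' B) ⟨b, hb, rfl⟩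
      exact ⟨n, lo_injOn hA hB (hxB n) hb (by rw [hx, hn])⟩

theorem unbdd_iff {B : Set (ℕ →₀ F)} : ¬ Module.Finite F (Submodule.span F B) ↔
    ∀ N, ∃ x ∈ B, ∃ i ∈ x.support, N ≤ i := by
  constructor
  · intro h N
    by_contra hc
    push Not at hc
    refine h (finite_of_bound _ N fun w hw i hi => ?_)
    by_contra hge
    exact Finsupp.mem_support_iff.1 hi (span_zero hc hw (not_lt.1 hge))
  · intro h
    refine not_finite_of_unbdd fun N => ?_
    obtain ⟨x, hx, h2⟩ := h N
    exact ⟨x, Submodule.subset_span hx, h2⟩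

theorem not_finite_mono {W W' : Submodule F (ℕ →₀ F)} (h : W ≤ W') (hW : ¬ Module.Finite F W) :
    ¬ Module.Finite F W' := fun _ => hW (Submodule.finiteDimensional_of_le h)

theorem main [Countable F] {α : F} (h0 : α ≠ 0) (h1 : α ≠ 1) :
    ∃ 𝒜 : Set (Submodule F (ℕ →₀ F)), 𝒜.Infinite ∧
      (∀ V ∈ 𝒜, ∃ x : ℕ → (ℕ →₀ F), (∀ n, x n ≠ 0) ∧
        (∀ n, ∀ i ∈ (x n).support, ∀ j ∈ (x (n + 1)).support, i < j) ∧
        V = Submodule.span F (Set.range x)) ∧
      (∀ V ∈ 𝒜, ¬ Module.Finite F V) ∧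
      (∀ V ∈ 𝒜, ∀ W ∈ 𝒜, V ≠ W → Module.Finite F ↥(V ⊓ W)) ∧
      (∀ Y : Submodule F (ℕ →₀ F), ¬ Module.Finite F Y → ∃ V ∈ 𝒜, ¬ Module.Finite F ↥(Y ⊓ V)) ∧
      MeasurableSet ((fun V : Submodule F (ℕ →₀ F) => fun x => decide (x ∈ V)) '' 𝒜) := by
  obtain ⟨κ, hκ, h2, h3⟩ := exists_code h0 h1
  obtain ⟨A, hA⟩ := exists_atom κ
  let 𝒜 : Set (Submodule F (ℕ →₀ F)) :=
    {V | ∃ B, Ch κ A B ∧ ¬ Module.Finite F (Submodule.span F B) ∧ V = Submodule.span F B}
  have hmax : ∀ Y : Submodule F (ℕ →₀ F), ¬ Module.Finite F Y →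
      ∃ V ∈ 𝒜, ¬ Module.Finite F ↥(Y ⊓ V) := by
    intro Y hY
    have ht := tails_of_not_finite hY
    obtain ⟨B, hB, hn⟩ := exists_branch h0 h1 hκ hA ht (h3 Y ht)
    exact ⟨_, ⟨B, hB, not_finite_mono inf_le_right hn, rfl⟩, hn⟩
  refine ⟨𝒜, ?_, ?_, ?_, ?_, hmax, ?_⟩
  · intro hfin
    have hch : ∀ V ∈ 𝒜, ∃ B, Ch κ A B ∧ V = Submodule.span F B :=
      fun V ⟨B, h, _, e⟩ => ⟨B, h, e⟩
    choose! br hbr hsp using hch
    have hb : ∀ n, ∃ K, ∀ V ∈ 𝒜, ∀ u ∈ br V, lo u ≤ n → ∀ i ∈ u.support, i < K := by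
      intro n
      have hf : (⋃ V ∈ 𝒜, {u ∈ br V | lo u ≤ n}).Finite := by
        refine hfin.biUnion fun V hV => ?_
        refine Set.Finite.of_finite_image (f := lo) ((Set.finite_Iic n).subset ?_)
          ((lo_injOn hA (hbr V hV)).mono (fun u hu => hu.1))
        rintro _ ⟨u, hu, rfl⟩; exact hu.2
      refine ⟨hf.toFinset.sup (fun x => x.support.sup id) + 1, fun V hV u hu hn i hi => ?_⟩
      have h4 : i ≤ u.support.sup id := Finset.le_sup (f := id) hi
      have h5 : u.support.sup id ≤ hf.toFinset.sup (fun x => x.support.sup id) :=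
        Finset.le_sup (f := fun x : ℕ →₀ F => x.support.sup id)
          (by simp only [Set.Finite.mem_toFinset, Set.mem_iUnion]; exact ⟨V, hV, hu, hn⟩)
      omega
    choose f hf using hb
    let g : ℕ → ℕ := fun n => Nat.rec 0 (fun _ m => f m + m + 1) n
    have hg : ∀ n, g (n + 1) = f (g n) + g n + 1 := fun _ => rfl
    have hmono : StrictMono g := strictMono_nat_of_lt_succ fun n => by rw [hg]; omega
    obtain ⟨V, hV, hn⟩ := hmax (Finsupp.supported F F (Set.range g)) (not_finite_of_unbdd fun N =>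
      ⟨Finsupp.single (g N) 1, Finsupp.single_mem_supported F 1 ⟨N, rfl⟩, g N, by simp,
        hmono.le_apply⟩)
    obtain ⟨w, hw, hw0, -⟩ := tails_of_not_finite hn 0
    have hw2 : w ∈ Submodule.span F (br V) := by rw [← hsp V hV]; exact hw.2
    obtain ⟨u, huB, hu, c, hc, x, hx, e⟩ := top hA (hbr V hV) hw2 hw0
    have hsu : ∀ i, u i ≠ 0 → i ∈ Set.range g := by
      intro i hi
      have := e i (Nat.zero_le _)
      rw [below hA hu hx (lo_le hi), add_zero] at this
      exact (Finsupp.mem_supported F w).1 hw.1 (by simp [this, hc, hi])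
    have hcard := h2 u (fun h => ((hA 0).1 (((hA u).1 hu).2.2.1 0 (by rw [h]; simp)).1).1 rfl)
    obtain ⟨j, hj, hjne⟩ := Finset.exists_mem_ne (by omega : 1 < u.support.card) (lo u)
    have hj0 := Finsupp.mem_support_iff.1 hj
    obtain ⟨a, ha⟩ := hsu _ (lo_ne ((hA u).1 hu).1)
    obtain ⟨b, hb⟩ := hsu _ hj0
    have h6 := lo_le hj0
    have hab : a < b := hmono.lt_iff_lt.1 (by omega)
    have h7 : g (a + 1) ≤ g b := hmono.monotone hab
    have h8 := hf (lo u) V hV u huB le_rfl j hj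
    rw [hg, ha] at h7
    omega
  · rintro V ⟨B, hB, hn, rfl⟩
    have hi : B.Infinite := fun h => hn (Module.Finite.span_of_finite F h)
    obtain ⟨x, e1, e2, e3⟩ := block_enum hA hB hi
    exact ⟨x, e1, e2, by rw [e3]⟩
  · rintro V ⟨B, hB, hn, rfl⟩; exact hn
  · rintro V ⟨B, hB, hn, rfl⟩ W ⟨B', hB', hn', rfl⟩ hne
    exact ad hκ hA hB hB' (fun h => hne (by rw [h]))
  · let S : Set ((ℕ →₀ F) → Bool) := {f | Ch κ A {x | f x = true} ∧
      ∀ N, ∃ x, f x = true ∧ ∃ i ∈ x.support, N ≤ i}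
    let Φ : ((ℕ →₀ F) → Bool) → ((ℕ →₀ F) → Bool) :=
      fun f w => decide (w ∈ Submodule.span F {x | f x = true})
    have m : ∀ x : ℕ →₀ F, Measurable (fun f : (ℕ →₀ F) → Bool => f x = true) := fun x =>
      measurableSet_setOfPred.1 (show MeasurableSet ((fun f : (ℕ →₀ F) → Bool => f x) ⁻¹' {true})
        from measurable_pi_apply x (MeasurableSet.singleton true))
    have hS : MeasurableSet S := by
      apply measurableSet_setOfPred.2
      refine Measurable.and (Measurable.forall fun x => (m x).imp (measurable_const.and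
        (Measurable.and (Measurable.forall fun y => measurable_const.imp (m y))
          (Measurable.forall fun y => (m y).imp measurable_const))))
        (Measurable.forall fun N => Measurable.exists fun x => (m x).and measurable_const)
    have hΦ : Measurable Φ := by
      refine measurable_pi_lambda _ fun w => measurable_to_bool ?_
      have : (fun f => Φ f w) ⁻¹' {true} = {f | ∃ T : Finset (ℕ →₀ F),
          w ∈ Submodule.span F (↑T : Set (ℕ →₀ F)) ∧ ∀ x, x ∈ T → f x = true} := by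
        ext f
        simp only [Φ, Set.mem_preimage, Set.mem_singleton_iff, decide_eq_true_eq, Set.mem_ofPred_eq]
        constructor
        · intro h
          obtain ⟨T, hT, hw⟩ := Submodule.mem_span_finite_of_mem_span h
          exact ⟨T, hw, fun x hx => hT hx⟩
        · rintro ⟨T, hw, hT⟩
          exact Submodule.span_mono (fun x hx => hT x hx) hw
      rw [this]
      exact measurableSet_setOfPred.2 (Measurable.exists fun T => measurable_const.and
        (Measurable.forall fun x => measurable_const.imp (m x)))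
    have hinj : Set.InjOn Φ S := by
      intro f hf f' hf' e
      have e1 : Submodule.span F {x | f x = true} = Submodule.span F {x | f' x = true} := by
        ext w; simpa [Φ] using congrFun e w
      by_contra hne
      have hne' : {x | f x = true} ≠ {x | f' x = true} := by
        intro h; apply hne; funext x
        have : f x = true ↔ f' x = true := Set.ext_iff.1 h x
        exact Bool.eq_iff_iff.2 this
      have := ad hκ hA hf.1 hf'.1 hne'
      rw [← e1, inf_idem] at this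
      exact unbdd_iff.2 hf.2 this
    have himg : (fun V : Submodule F (ℕ →₀ F) => fun x => decide (x ∈ V)) '' 𝒜 = Φ '' S := by
      ext φ
      constructor
      · rintro ⟨V, ⟨B, hB, hn, rfl⟩, rfl⟩
        have e : {x | decide (x ∈ B) = true} = B := by ext x; simp
        refine ⟨fun x => decide (x ∈ B), ⟨by rw [e]; exact hB, ?_⟩, by simp only [Φ, e]⟩
        intro N
        obtain ⟨x, hx, h⟩ := unbdd_iff.1 hn N
        exact ⟨x, by simpa using hx, h⟩
      · rintro ⟨f, hf, rfl⟩
        exact ⟨_, ⟨_, hf.1, unbdd_iff.2 hf.2, rfl⟩, rfl⟩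
    rw [himg]
    exact hS.image_of_measurable_injOn hΦ hinj

end Pool.Agent.H.MP_5897b0_lc
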