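import Mathlib

set_option autoImplicit false

namespace Pool.Agent.H.MP_5897b0_lc.Two

open Classical Filter

attribute [local instance] Ultrafilter.add Ultrafilter.addSemigroup

variable {F : Type*} [Field F] {E : Type*} [AddCommGroup E] [Module F E]

theorem exists_idem {𝒜 : Set (Submodule F E)} (hinf : 𝒜.Infinite)
    (h1 : ∀ V ∈ 𝒜, (V : Set E).Infinite)
    (h2 : ∀ V ∈ 𝒜, ∀ W ∈ 𝒜, V ≠ W → ((V : Set E) ∩ W).Finite) :
    ∃ U : Ultrafilter E, (∀ V ∈ 𝒜, ∀ c : E, ∀ᶠ y in U, c + y ∉ V) ∧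
      ∀ p : E → Prop, (∀ᶠ x in U, p x) → ∀ᶠ x in U, ∀ᶠ y in U, p (x + y) := by
  let S : Set (Ultrafilter E) := ⋂ V ∈ 𝒜, ⋂ c : E, {U | {y | c + y ∉ V} ∈ U}
  have hS : ∀ U, U ∈ S ↔ ∀ V ∈ 𝒜, ∀ c : E, ∀ᶠ y in (U : Filter E), c + y ∉ V := by
    intro U; simp only [S, Set.mem_iInter]; rfl
  have hh := exists_idempotent_in_compact_add_subsemigroup
    Ultrafilter.continuous_add_left S ?_ ?_ ?_
  · obtain ⟨U, hU, hid⟩ := hh
    refine ⟨U, (hS U).1 hU, fun p hp => ?_⟩
    rw [← Ultrafilter.eventually_add, hid]; exact hp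
  · obtain ⟨U, hU⟩ := Ultrafilter.exists_ultrafilter_of_finite_inter_nonempty
      (Set.range fun q : 𝒜 × E => {y | q.2 + y ∉ q.1.1}) (by
        intro T hT
        obtain ⟨T', rfl⟩ : ∃ T' : Finset (𝒜 × E),
            T = T'.image (fun q : 𝒜 × E => {y | q.2 + y ∉ q.1.1}) := by
          obtain ⟨T', -, h⟩ := Finset.subset_set_image_iff.1
            (show (T : Set (Set E)) ⊆ (fun q : 𝒜 × E => {y | q.2 + y ∉ q.1.1}) '' Set.univ by
              rwa [Set.image_univ])
          exact ⟨T', h.symm⟩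
        obtain ⟨W, hW, hWT⟩ := hinf.exists_notMem_finset (T'.image fun q => q.1.1)
        have hfin : (⋃ q ∈ T', {y ∈ (W : Set E) | q.2 + y ∈ q.1.1}).Finite := by
          refine T'.finite_toSet.biUnion fun q hq => ?_
          have hne : W ≠ q.1.1 := fun h => hWT (Finset.mem_image.2 ⟨q, hq, h.symm⟩)
          rcases Set.eq_empty_or_nonempty {y ∈ (W : Set E) | q.2 + y ∈ q.1.1} with h | ⟨y0, hy0⟩
          · rw [h]; exact Set.finite_empty
          · refine ((h2 W hW _ q.1.2 hne).image (fun z => z + y0)).subset fun y hy => ?_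
            refine ⟨y - y0, ⟨W.sub_mem hy.1 hy0.1, ?_⟩, by simp⟩
            have := q.1.1.sub_mem hy.2 hy0.2
            simpa using this
        obtain ⟨y, hyW, hy⟩ := (h1 W hW).exists_notMem_finite hfin
        refine ⟨y, ?_⟩
        simp only [Finset.coe_image, Set.sInter_image, Set.mem_iInter]
        intro q hq h
        exact hy (Set.mem_biUnion hq ⟨hyW, h⟩))
    exact ⟨U, (hS U).2 fun V hV c => hU ⟨(⟨V, hV⟩, c), rfl⟩⟩
  · exact IsClosed.isCompact (isClosed_biInter fun V _ => isClosed_iInter fun c =>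
      ultrafilter_isClosed_basic _)
  · intro U _ U' hU'
    rw [hS] at hU' ⊢
    intro V hV c
    rw [Ultrafilter.eventually_add]
    refine Eventually.of_forall fun x => ?_
    simpa only [add_assoc] using hU' V hV (c + x)

/-- a tail of the sequence spans a space meeting V trivially -/
def Good (d : ℕ → E) (V : Submodule F E) : Prop :=
  ∃ n, ∀ x ∈ Submodule.span F (d '' Set.Ici n), x ∈ V → x = 0

/-- families that can be avoided by a strategy -/
def Sm (U : Ultrafilter E) (ℬ : Set (Submodule F E)) : Prop :=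
  ∃ σ : ℕ → Finset E → Set E, (∀ n s, σ n s ∈ U) ∧ ∀ (d : ℕ → E) (h : ℕ → Finset E),
    (∀ n, h (n + 1) = insert (d n) (h n)) → ∀ n0, (∀ n, n0 ≤ n → d n ∈ σ n (h n)) →
      ∀ V ∈ ℬ, Good d V

theorem Sm.mono {U : Ultrafilter E} {ℬ ℬ' : Set (Submodule F E)} (h : Sm U ℬ') (hs : ℬ ⊆ ℬ') :
    Sm U ℬ := by
  obtain ⟨σ, h1, h2⟩ := h
  exact ⟨σ, h1, fun d h hh n0 hn V hV => h2 d h hh n0 hn V (hs hV)⟩

theorem Sm.iUnion {U : Ultrafilter E} {ι : Type*} [Countable ι] {ℬ : ι → Set (Submodule F E)}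
    (h : ∀ i, Sm U (ℬ i)) : Sm U (⋃ i, ℬ i) := by
  obtain ⟨e, he⟩ := exists_injective_nat ι
  choose σ h1 h2 using h
  refine ⟨fun n s => ⋂ i ∈ e ⁻¹' Set.Iic n, σ i n s, fun n s => ?_, ?_⟩
  · exact (Filter.biInter_mem ((Set.finite_Iic n).preimage he.injOn)).2 fun i _ => h1 i n s
  · intro d hh hrec n0 hn V hV
    obtain ⟨i, hi⟩ := Set.mem_iUnion.1 hV
    refine h2 i d hh hrec (n0 + e i) (fun n hn' => ?_) V hi
    exact Set.mem_iInter₂.1 (hn n (by omega)) i (show e i ≤ n by omega)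

theorem Sm.union {U : Ultrafilter E} {ℬ ℬ' : Set (Submodule F E)} (h : Sm U ℬ) (h' : Sm U ℬ') :
    Sm U (ℬ ∪ ℬ') := by
  rw [Set.union_eq_iUnion]
  exact Sm.iUnion fun b => by cases b <;> assumption

theorem span_finite [Finite F] (s : Set E) (hs : s.Finite) :
    (Submodule.span F s : Set E).Finite := by
  have := Module.Finite.span_of_finite F hs
  exact Set.finite_coe_iff.1 (Module.finite_of_finite F)

theorem avoid [Finite F] (hF : ∀ a : F, a = 0 ∨ a = 1) {U : Ultrafilter E}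
    (hid : ∀ p : E → Prop, (∀ᶠ x in U, p x) → ∀ᶠ x in U, ∀ᶠ y in U, p (x + y))
    {C : Set E} (hC : C ∈ U) : Sm U {V : Submodule F E | ∀ x ∈ V, x ∉ C} := by
  let D : Set E := {x | x ∈ C ∧ ∀ᶠ y in U, x + y ∈ C}
  have hD : D ∈ U := Filter.inter_mem hC (hid _ hC)
  have hD2 : ∀ x ∈ D, {y | x + y ∈ D} ∈ U := by
    intro x hx
    have := hid _ hx.2
    filter_upwards [hx.2, this] with y h1 h2
    exact ⟨h1, by simpa only [add_assoc] using h2⟩
  refine ⟨fun _ s => D ∩ ⋂ x ∈ (Submodule.span F (s : Set E) : Set E) ∩ D, {y | x + y ∈ D},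
    fun n s => Filter.inter_mem hD ((Filter.biInter_mem
      ((span_finite _ s.finite_toSet).inter_of_left _)).2 fun x hx => hD2 x hx.2), ?_⟩
  intro d h hrec n0 hn V hV
  have hsub : ∀ n, d '' Set.Ico n0 n ⊆ (h n : Set E) := by
    intro n
    induction n with
    | zero => simp
    | succ n ih =>
      rintro _ ⟨m, hm, rfl⟩
      rw [hrec, Finset.coe_insert]
      rcases Nat.lt_succ_iff_lt_or_eq.1 hm.2 with h' | h'
      · exact Or.inr (ih ⟨m, ⟨hm.1, h'⟩, rfl⟩)
      · exact Or.inl (by rw [h'])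
  have key : ∀ n, ∀ x ∈ Submodule.span F (d '' Set.Ico n0 n), x = 0 ∨ x ∈ D := by
    intro n
    induction n with
    | zero => intro x hx; left; simpa using hx
    | succ n ih =>
      intro x hx
      by_cases hle : n0 ≤ n
      · have e : d '' Set.Ico n0 (n + 1) = insert (d n) (d '' Set.Ico n0 n) := by
          rw [← Set.image_insert_eq]; congr 1; ext m; simp; omega
        rw [e, Submodule.mem_span_insert] at hx
        obtain ⟨a, x', hx', rfl⟩ := hx
        rcases hF a with rfl | rfl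
        · simpa using ih x' hx'
        · right
          rw [one_smul]
          rcases ih x' hx' with rfl | h'
          · rw [add_zero]; exact (hn n hle).1
          · rw [add_comm]
            exact Set.mem_iInter₂.1 (hn n hle).2 x' ⟨Submodule.span_mono (hsub n) hx', h'⟩
      · have e : Set.Ico n0 (n + 1) = ∅ := Set.Ico_eq_empty (by omega)
        left; simpa [e] using hx
  refine ⟨n0, fun x hx hxV => ?_⟩
  have : ∃ n, x ∈ Submodule.span F (d '' Set.Ico n0 n) := by
    clear hxV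
    induction hx using Submodule.span_induction with
    | mem x hx =>
      obtain ⟨m, hm, rfl⟩ := hx
      exact ⟨m + 1, Submodule.subset_span ⟨m, ⟨hm, by omega⟩, rfl⟩⟩
    | zero => exact ⟨0, Submodule.zero_mem _⟩
    | add x y _ _ h1 h2 =>
      obtain ⟨a, ha⟩ := h1
      obtain ⟨b, hb⟩ := h2
      exact ⟨a + b, Submodule.add_mem _
        (Submodule.span_mono (Set.image_mono (Set.Ico_subset_Ico_right (by omega))) ha)
        (Submodule.span_mono (Set.image_mono (Set.Ico_subset_Ico_right (by omega))) hb)⟩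
    | smul c x _ h1 =>
      obtain ⟨a, ha⟩ := h1
      exact ⟨a, Submodule.smul_mem _ _ ha⟩
  obtain ⟨n, hxn⟩ := this
  rcases key n x hxn with h' | h'
  · exact h'
  · exact absurd h'.1 (hV x hxV)

theorem large [Finite F] [Countable E] (hF : ∀ a : F, a = 0 ∨ a = 1) {U : Ultrafilter E}
    (hid : ∀ p : E → Prop, (∀ᶠ x in U, p x) → ∀ᶠ x in U, ∀ᶠ y in U, p (x + y))
    {ℬ : Set (Submodule F E)} (hB : ¬ Sm U ℬ) : {v | ¬ Sm U {V ∈ ℬ | v ∈ V}} ∈ U := by
  by_contra hc
  have hC : {v | Sm U {V ∈ ℬ | v ∈ V}} ∈ U := by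
    have := Ultrafilter.compl_mem_iff_notMem.2 hc
    simpa [Set.compl_ofPred] using this
  apply hB
  refine ((avoid hF hid hC).union (Sm.iUnion
    (ι := {v | Sm U {V ∈ ℬ | v ∈ V}}) (ℬ := fun v => {V ∈ ℬ | v.1 ∈ V}) fun v => v.2)).mono ?_
  intro V hV
  by_cases h : ∀ x ∈ V, x ∉ {v | Sm U {V ∈ ℬ | v ∈ V}}
  · exact Or.inl h
  · push Not at h
    obtain ⟨x, hx, hx2⟩ := h
    exact Or.inr (Set.mem_iUnion.2 ⟨⟨x, hx2⟩, hV, hx⟩)

theorem Good.finite [Finite F] {d : ℕ → E} {V : Submodule F E} (h : Good d V) :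
    ((Submodule.span F (Set.range d) : Set E) ∩ V).Finite := by
  obtain ⟨n, hn⟩ := h
  have e : Set.range d = d '' Set.Iio n ∪ d '' Set.Ici n := by
    rw [← Set.image_union, Set.Iio_union_Ici, Set.image_univ]
  have : ∀ x ∈ (Submodule.span F (Set.range d) : Set E) ∩ V,
      ∃ a ∈ Submodule.span F (d '' Set.Iio n), x - a ∈ Submodule.span F (d '' Set.Ici n) := by
    intro x hx
    have h1 : x ∈ Submodule.span F (Set.range d) := hx.1
    rw [e, Submodule.span_union, Submodule.mem_sup] at h1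
    obtain ⟨a, ha, b, hb, rfl⟩ := h1
    exact ⟨a, ha, by simpa using hb⟩
  choose! g hg1 hg2 using this
  refine Set.Finite.of_finite_image (f := g)
    ((span_finite (F := F) _ ((Set.finite_Iio n).image d)).subset ?_) ?_
  · rintro _ ⟨x, hx, rfl⟩; exact hg1 x hx
  · intro x hx y hy hxy
    have h1 := Submodule.sub_mem _ (hg2 x hx) (hg2 y hy)
    rw [hxy, sub_sub_sub_cancel_right] at h1
    exact sub_eq_zero.1 (hn _ h1 (V.sub_mem hx.2 hy.2))

theorem Sm.exists [Finite F] {U : Ultrafilter E} (hU : ∀ s : Finset E, ∀ᶠ y in U, y ∉ s)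
    {ℬ : Set (Submodule F E)} (h : Sm U ℬ) :
    ∃ Y : Submodule F E, (Y : Set E).Infinite ∧ ∀ V ∈ ℬ, ((Y : Set E) ∩ V).Finite := by
  obtain ⟨σ, h1, h2⟩ := h
  have : ∀ n s, ∃ y, y ∈ σ n s ∧ y ∉ s := fun n s =>
    Ultrafilter.nonempty_of_mem (Filter.inter_mem (h1 n s) (hU s))
  choose p hp1 hp2 using this
  let h : ℕ → Finset E := fun n => Nat.rec ∅ (fun n s => insert (p n s) s) n
  have hrec : ∀ n, h (n + 1) = insert (p n (h n)) (h n) := fun _ => rfl
  have hmono : Monotone h := monotone_nat_of_le_succ fun n => by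
    rw [hrec]; exact Finset.subset_insert _ _
  refine ⟨Submodule.span F (Set.range fun n => p n (h n)), ?_, fun V hV =>
    (h2 _ h hrec 0 (fun n _ => hp1 n _) V hV).finite⟩
  refine Set.Infinite.mono Submodule.subset_span (Set.infinite_range_of_injective ?_)
  refine Function.Injective.of_lt_imp_ne fun a b hab e => hp2 b (h b) ?_
  rw [← e]
  exact hmono (show a + 1 ≤ b from hab) (by rw [hrec]; exact Finset.mem_insert_self _ _)

end Pool.Agent.H.MP_5897b0_lc.Two
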