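import Mathlib
import Pool.Agent.H.MP_5897b0_lc.G

set_option autoImplicit false

namespace Pool.Agent.H.MP_5897b0_lc.Two

open Classical Filter

variable {F : Type*} [Field F] {E : Type*} [AddCommGroup E] [Module F E]

theorem closed_mem {Z : Set (ℕ → ℕ)} (hZ : IsClosed Z) {w : ℕ → ℕ}
    (h : ∀ m, ∃ p ∈ Z, ∀ i < m, p i = w i) : w ∈ Z := by
  choose p hp1 hp2 using h
  refine hZ.mem_of_tendsto (f := p) (b := atTop) ?_ (Eventually.of_forall hp1)
  rw [tendsto_pi_nhds]
  intro i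
  refine tendsto_const_nhds.congr' ?_
  filter_upwards [eventually_gt_atTop i] with m hm
  exact (hp2 m i hm).symm

theorem not_mad [Finite F] [Countable E] (hF : ∀ a : F, a = 0 ∨ a = 1)
    {𝒜 : Set (Submodule F E)} (hinf : 𝒜.Infinite)
    (h1 : ∀ V ∈ 𝒜, (V : Set E).Infinite)
    (h2 : ∀ V ∈ 𝒜, ∀ W ∈ 𝒜, V ≠ W → ((V : Set E) ∩ W).Finite)
    (han : MeasureTheory.AnalyticSet ((fun V : Submodule F E => fun x => decide (x ∈ V)) '' 𝒜)) :
    ∃ Y : Submodule F E, (Y : Set E).Infinite ∧ ∀ V ∈ 𝒜, ((Y : Set E) ∩ V).Finite := by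
  obtain ⟨U, hU, hid⟩ := exists_idem hinf h1 h2
  obtain ⟨V0, hV0⟩ := hinf.nonempty
  have hfin : ∀ s : Finset E, ∀ᶠ y in U, y ∉ s := by
    intro s
    have : ∀ᶠ y in (U : Filter E), ∀ c ∈ s, -c + y ∉ V0 :=
      (Filter.eventually_all_finset s).2 fun c _ => hU V0 hV0 (-c)
    filter_upwards [this] with y hy hys
    exact hy y hys (by simp)
  refine Sm.exists hfin ?_
  by_contra hns
  rw [MeasureTheory.AnalyticSet] at han
  rcases han with han | ⟨f, hf, hr⟩
  · exact (hinf.nonempty.image _).ne_empty han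
  have hG : ∀ w, ∃ V ∈ 𝒜, (fun x => decide (x ∈ V)) = f w := fun w => by
    have : f w ∈ Set.range f := ⟨w, rfl⟩
    rw [hr] at this; exact this
  choose G hG1 hG2 using hG
  have hmem : ∀ w x, x ∈ G w ↔ f w x = true := fun w x => by rw [← hG2 w]; simp
  have hsurj : ∀ V ∈ 𝒜, ∃ w, G w = V := by
    intro V hV
    have : (fun x => decide (x ∈ V)) ∈ Set.range f := by rw [hr]; exact ⟨V, hV, rfl⟩
    obtain ⟨w, hw⟩ := this
    exact ⟨w, by ext x; rw [hmem, hw]; simp⟩
  have hsing : ∀ V ∈ 𝒜, Sm U {V} := by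
    intro V hV
    refine (avoid hF hid (C := {y | 0 + y ∉ V}) (hU V hV 0)).mono ?_
    rintro _ rfl x hx
    simpa using hx
  have hsplit : ∃ u, ∀ b : Bool, ¬ Sm U (G '' {p | f p u = b}) := by
    by_contra hc
    push Not at hc
    choose β hβ using hc
    have hs1 : Sm U (⋃ u, G '' {p | f p u = β u}) := Sm.iUnion hβ
    by_cases hall : 𝒜 ⊆ ⋃ u, G '' {p | f p u = β u}
    · exact hns (hs1.mono hall)
    · obtain ⟨V, hV, hV2⟩ := Set.not_subset.1 hall
      refine hns ((hs1.union (hsing V hV)).mono fun W hW => ?_)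
      by_cases hW2 : W ∈ ⋃ u, G '' {p | f p u = β u}
      · exact Or.inl hW2
      · right
        obtain ⟨v, rfl⟩ := hsurj V hV
        obtain ⟨w, rfl⟩ := hsurj W hW
        simp only [Set.mem_iUnion, not_exists] at hV2 hW2
        show G w = G v
        ext u
        have e1 : f v u ≠ β u := fun h => hV2 u ⟨v, h, rfl⟩
        have e2 : f w u ≠ β u := fun h => hW2 u ⟨w, h, rfl⟩
        rw [hmem, hmem]
        revert e1 e2
        cases f v u <;> cases f w u <;> cases β u <;> simp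
  obtain ⟨u, hu⟩ := hsplit
  let I : ℕ → (Bool → ℕ → ℕ) × Finset E → Prop := fun n q => ∀ b,
    ¬ Sm U (G '' {p | f p u = b ∧ (∀ v ∈ q.2, f p v = true) ∧ ∀ i < n, p i = q.1 b i})
  have hstep : ∀ n q, I n q → ∃ q', I (n + 1) q' ∧ (∀ b, ∀ i < n, q'.1 b i = q.1 b i) ∧
      q.2 ⊂ q'.2 := by
    intro n q hq
    have hall : ∀ᶠ v in (U : Filter E), (∀ b, ¬ Sm U {V ∈ G '' {p | f p u = b ∧
        (∀ v ∈ q.2, f p v = true) ∧ ∀ i < n, p i = q.1 b i} | v ∈ V}) ∧ v ∉ q.2 :=
      (Filter.eventually_all.2 fun b => large hF hid (hq b)).and (hfin q.2)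
    obtain ⟨v, hv, hvs⟩ := hall.exists
    have : ∀ b, ∃ k, ¬ Sm U (G '' {p | f p u = b ∧ (∀ v' ∈ insert v q.2, f p v' = true) ∧
        ∀ i < n + 1, p i = Function.update (q.1 b) n k i}) := by
      intro b
      by_contra hc
      push Not at hc
      refine hv b ((Sm.iUnion hc).mono ?_)
      rintro _ ⟨⟨p, ⟨e1, e2, e3⟩, rfl⟩, e4⟩
      refine Set.mem_iUnion.2 ⟨p n, p, ⟨e1, ?_, ?_⟩, rfl⟩
      · intro v' hv'
        rcases Finset.mem_insert.1 hv' with rfl | h
        · exact (hmem _ _).1 e4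
        · exact e2 v' h
      · intro i hi
        rcases Nat.lt_succ_iff_lt_or_eq.1 hi with h | rfl
        · rw [Function.update_of_ne h.ne, e3 i h]
        · simp
    choose k hk using this
    exact ⟨(fun b => Function.update (q.1 b) n (k b), insert v q.2), hk,
      fun b i hi => Function.update_of_ne hi.ne _ _, Finset.ssubset_insert hvs⟩
  choose nx hn1 hn2 hn3 using hstep
  have h0 : I 0 (fun _ _ => 0, ∅) := fun b => by simpa using hu b
  let sq : (n : ℕ) → {q // I n q} := fun n =>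
    Nat.rec ⟨_, h0⟩ (fun n q => ⟨nx n q.1 q.2, hn1 n q.1 q.2⟩) n
  have hc1 : ∀ n b, ∀ i < n, (sq (n + 1)).1.1 b i = (sq n).1.1 b i :=
    fun n => hn2 n (sq n).1 (sq n).2
  have hc2 : StrictMono fun n => (sq n).1.2 :=
    strictMono_nat_of_lt_succ fun n => hn3 n (sq n).1 (sq n).2
  let w : Bool → ℕ → ℕ := fun b i => (sq (i + 1)).1.1 b i
  have hw : ∀ b i n, i < n → (sq n).1.1 b i = w b i := by
    intro b i n hn
    induction n, hn using Nat.le_induction with
    | base => rfl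
    | succ n hn ih => rw [hc1 n b i hn, ih]
  have hpt : ∀ b n, ∃ p, f p u = b ∧ (∀ v ∈ (sq n).1.2, f p v = true) ∧ ∀ i < n, p i = w b i := by
    intro b n
    by_contra hc
    refine (sq n).2 b ((hsing V0 hV0).mono ?_)
    rintro _ ⟨p, ⟨e1, e2, e3⟩, rfl⟩
    exact absurd ⟨p, e1, e2, fun i hi => by rw [e3 i hi, hw b i n hi]⟩ hc
  have hcl : ∀ x b, IsClosed {p | f p x = b} := fun x b =>
    isClosed_eq ((continuous_apply x).comp hf) continuous_const
  have hwu : ∀ b, f (w b) u = b := fun b => closed_mem (hcl u b) fun m => by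
    obtain ⟨p, e1, -, e3⟩ := hpt b m
    exact ⟨p, e1, e3⟩
  have hwv : ∀ b n, ∀ v ∈ (sq n).1.2, v ∈ G (w b) := fun b n v hv =>
    (hmem _ _).2 (closed_mem (hcl v true) fun m => by
      obtain ⟨p, -, e2, e3⟩ := hpt b (m + n)
      exact ⟨p, e2 v (hc2.monotone (by omega) hv), fun i hi => e3 i (by omega)⟩)
  have hne : G (w true) ≠ G (w false) := by
    intro h
    have e1 := (hmem _ _).2 (hwu true)
    rw [h, hmem, hwu false] at e1
    exact absurd e1 (by simp)
  have hf2 := h2 _ (hG1 _) _ (hG1 _) hne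
  have hcard : ∀ n, n ≤ (sq n).1.2.card := fun n =>
    (Finset.card_strictMono.comp hc2).le_apply
  have := Finset.card_le_card (show (sq (hf2.toFinset.card + 1)).1.2 ⊆ hf2.toFinset from
    fun v hv => hf2.mem_toFinset.2 ⟨hwv true _ v hv, hwv false _ v hv⟩)
  have := hcard (hf2.toFinset.card + 1)
  omega

end Pool.Agent.H.MP_5897b0_lc.Two
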